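import Mathlib

/-!
# Steinberg symbols of finite rank on fields of positive characteristic: definitions

`k ⊆ F` fields, `f : F → A` a colouring (a homomorphism `Fˣ → A`, written on nonzero elements,
trivial on `kˣ`).  Everything is stated with junk values at `0` (never used).
-/

set_option autoImplicit false

namespace Pool.Agent.Helper58.ETL

/-- `f` restricted to the nonzero elements is a homomorphism to the additive group `A`, and it
kills the nonzero constants. -/
structure IsColour (k : Type*) {F A : Type*} [Field k] [Field F] [Algebra k F] [AddCommGroup A]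
    (f : F → A) : Prop where
  map_mul : ∀ x y : F, x ≠ 0 → y ≠ 0 → f (x * y) = f x + f y
  map_const : ∀ c : k, c ≠ 0 → f (algebraMap k F c) = 0

/-- The lines of `U`: on every two-dimensional `k`-subspace `L` of `F` the function `f` is
constant off at most `N` points (one-dimensional subspaces). -/
def LineConst (k : Type*) {F A : Type*} [Field k] [Field F] [Algebra k F] [AddCommGroup A]
    (f : F → A) (N : ℕ) : Prop :=
  ∀ L : Submodule k F, Module.finrank k L = 2 → ∃ α : A,
    {H : Submodule k F | H ≤ L ∧ Module.finrank k H = 1 ∧ ∃ z ∈ H, z ≠ 0 ∧ f z ≠ α}.encard ≤ N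

/-- `g` is the function generic value of `f` on finite dimensional subspaces: it extends `f`,
is compatible with multiplication by elements, and at most `N` hyperplanes of a finite dimensional
subspace of dimension `≥ 2` have a different value. -/
structure IsMaj (k : Type*) {F A : Type*} [Field k] [Field F] [Algebra k F] [AddCommGroup A]
    (f : F → A) (N : ℕ) (g : Submodule k F → A) : Prop where
  line : ∀ z : F, z ≠ 0 → g (Submodule.span k {z}) = f z
  smul : ∀ (z : F) (U : Submodule k F), z ≠ 0 → U ≠ ⊥ → U.FG →
    g (Submodule.span k {z} * U) = f z + g U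
  hyp : ∀ U : Submodule k F, 2 ≤ Module.finrank k U →
    {H : Submodule k F | H ≤ U ∧ Module.finrank k H + 1 = Module.finrank k U ∧
      g H ≠ g U}.encard ≤ N

/-- `Φ` is an additive generic value function: it extends `f`, is additive for products of
subspaces and satisfies the mean value property `mv`. (`+` and `∑` of submodules is `⊔`.) -/
structure IsPhi (k : Type*) {F A : Type*} [Field k] [Field F] [Algebra k F] [AddCommGroup A]
    (f : F → A) (N : ℕ) (Φ : Submodule k F → A) : Prop where
  line : ∀ z : F, z ≠ 0 → Φ (Submodule.span k {z}) = f z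
  mul : ∀ U V : Submodule k F, U ≠ ⊥ → U.FG → V ≠ ⊥ → V.FG → Φ (U * V) = Φ U + Φ V
  mv : ∀ (n : ℕ) (C : Fin n → Submodule k F), n = N + 1 → (∀ i, C i ≠ ⊥ ∧ (C i).FG) →
    ∃ j, Φ (∑ i ∈ Finset.univ.erase j, C i) = Φ (∑ i, C i)

/-- The set of elements `x` such that adjoining `x • Y` to `Y + Z` never changes `Φ`. -/
def ringSet (k : Type*) {F A : Type*} [Field k] [Field F] [Algebra k F]
    (Φ : Submodule k F → A) : Set F :=
  {x : F | ∀ Y Z : Submodule k F, Y ≠ ⊥ → Y.FG → Z.FG →
    Φ (Y + Submodule.span k {x} * Y + Z) = Φ (Y + Z)}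

/-- A Steinberg symbol of finite rank: `φ : Fˣ → W` a homomorphism trivial on `kˣ`, `ω` an
alternating biadditive map on `W` with `ω (φ x) (φ (1 - x)) = 0`. -/
structure IsSymbol (k : Type*) {F W B : Type*} [Field k] [Field F] [Algebra k F]
    [AddCommGroup W] [AddCommGroup B] (φ : F → W) (ω : W →+ W →+ B) : Prop extends
    IsColour k φ where
  alt : ∀ w : W, ω w w = 0
  steinberg : ∀ x : F, x ≠ 0 → x ≠ 1 → ω (φ x) (φ (1 - x)) = 0

/-- `k` is the union of a chain of finite subfields. -/
structure Exhaust (k : Type*) [Field k] (κ : ℕ → Subfield k) : Prop where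
  mono : Monotone κ
  fin : ∀ j, Finite (κ j)
  exh : ∀ x : k, ∃ j, x ∈ κ j

end Pool.Agent.Helper58.ETL
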